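import Pool.Agent.N893.TB.Stm

set_option autoImplicit false

namespace Pool.Agent.N584.TB

open Filter Finset Pool.Agent.N893.TB
open scoped Topology

lemma lim0 : Tendsto (fun K : ℕ => (1 + (K : ℝ) ^ (3 / 4 : ℝ)) * Real.log K ^ 2 / K) atTop (𝓝 0) := by
  have h1 : Tendsto (fun x : ℝ => Real.log x ^ (2 : ℝ) / x ^ (1 / 4 : ℝ)) atTop (𝓝 0) :=
    (isLittleO_log_rpow_rpow_atTop (s := 1 / 4) 2 (by norm_num)).tendsto_div_nhds_zero
  have h2 : Tendsto (fun K : ℕ => 2 * (Real.log (K : ℝ) ^ (2 : ℝ) / (K : ℝ) ^ (1 / 4 : ℝ))) atTop (𝓝 0) := by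
    have := (h1.comp tendsto_natCast_atTop_atTop).const_mul 2
    simpa using this
  refine squeeze_zero' ?_ ?_ h2
  · filter_upwards with K
    positivity
  · filter_upwards [eventually_ge_atTop 1] with K hK
    have hK0 : (0 : ℝ) < K := by exact_mod_cast hK
    have hK1 : (1 : ℝ) ≤ K := by exact_mod_cast hK
    have h3 : (K : ℝ) ^ (3 / 4 : ℝ) * (K : ℝ) ^ (1 / 4 : ℝ) = K := by
      rw [← Real.rpow_add hK0]
      norm_num
    have h4 : (1 : ℝ) ≤ (K : ℝ) ^ (3 / 4 : ℝ) := Real.one_le_rpow hK1 (by norm_num)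
    have h5 : (0 : ℝ) < (K : ℝ) ^ (1 / 4 : ℝ) := Real.rpow_pos_of_pos hK0 _
    have h6 : Real.log (K : ℝ) ^ (2 : ℝ) = Real.log (K : ℝ) ^ 2 := by
      exact_mod_cast Real.rpow_natCast (Real.log (K : ℝ)) 2
    rw [h6, ← mul_div_assoc, div_le_div_iff₀ hK0 h5]
    have h7 : 0 ≤ Real.log (K : ℝ) ^ 2 := sq_nonneg _
    have h8 : (1 + (K : ℝ) ^ (3 / 4 : ℝ)) * (K : ℝ) ^ (1 / 4 : ℝ) ≤ 2 * K := by
      nlinarith [mul_le_mul_of_nonneg_right h4 h5.le]
    calc (1 + (K : ℝ) ^ (3 / 4 : ℝ)) * Real.log K ^ 2 * (K : ℝ) ^ (1 / 4 : ℝ)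
        = ((1 + (K : ℝ) ^ (3 / 4 : ℝ)) * (K : ℝ) ^ (1 / 4 : ℝ)) * Real.log K ^ 2 := by ring
      _ ≤ (2 * K) * Real.log K ^ 2 := mul_le_mul_of_nonneg_right h8 h7
      _ = 2 * Real.log K ^ 2 * K := by ring

lemma le_abs_mul {C x y : ℝ} (h : x ≤ C * y) (hy : 0 ≤ y) : x ≤ |C| * y :=
  h.trans (mul_le_mul_of_nonneg_right (le_abs_self C) hy)

theorem main (hP : tPER) (hS : tSUMLOG) : tCOREN := by
  intro J a g T c h
  have hJ : 1 ≤ J := h.odd.pos
  have hanti2 : ∀ k, (fun k => g k ^ 2) (k + 1) ≤ (fun k => g k ^ 2) k := by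
    intro k
    exact pow_le_pow_left₀ (h.nonneg _) (h.anti k) 2
  have hnn2 : ∀ k, 0 ≤ (fun k => g k ^ 2) k := fun k => sq_nonneg _
  refine ⟨?_, ?_⟩
  · obtain ⟨C1, h1⟩ := hP J a (fun k => g k ^ 2) hJ h.per hanti2 hnn2
    obtain ⟨C2, h2⟩ := h.sumT 1 0 le_rfl
    have h3 := hS g c 2 h.lim
    obtain ⟨A, hA⟩ : ∃ A : ℝ, A = (∑ k ∈ range J, a k) / J := ⟨_, rfl⟩
    rw [← hA] at h1 ⊢
    have h2' : ∀ K : ℕ, |∑ k ∈ range K, (T k - a k * g k ^ 2)| ≤ C2 * (K : ℝ) ^ (3 / 4 : ℝ) := by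
      intro K
      have := h2 K
      simpa [Nat.mod_one] using this
    have herr : ∀ K : ℕ, |∑ k ∈ range K, T k - A * ∑ k ∈ range K, g k ^ 2| ≤
        (|C1| + |C2|) * (1 + (K : ℝ) ^ (3 / 4 : ℝ)) := by
      intro K
      have e1 : ∑ k ∈ range K, T k - A * ∑ k ∈ range K, g k ^ 2 =
          ∑ k ∈ range K, (T k - a k * g k ^ 2) +
            (∑ k ∈ range K, g k ^ 2 * a k - A * ∑ k ∈ range K, g k ^ 2) := by
        rw [sum_sub_distrib]
        have : ∑ k ∈ range K, g k ^ 2 * a k = ∑ k ∈ range K, a k * g k ^ 2 :=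
          sum_congr rfl fun k _ => mul_comm _ _
        rw [this]
        ring
      have hK : (0 : ℝ) ≤ (K : ℝ) ^ (3 / 4 : ℝ) := Real.rpow_nonneg (Nat.cast_nonneg K) _
      rw [e1]
      refine (abs_add_le _ _).trans ?_
      have e2 := le_abs_mul (h2' K) hK
      have e3 := (h1 K).trans (le_abs_self C1)
      nlinarith [abs_nonneg C1, abs_nonneg C2, mul_nonneg (abs_nonneg C1) hK]
    have hl : Tendsto (fun K : ℕ => (∑ k ∈ range K, T k - A * ∑ k ∈ range K, g k ^ 2) *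
        Real.log K ^ 2 / K) atTop (𝓝 0) := by
      have h4 : Tendsto (fun K : ℕ => (|C1| + |C2|) *
          ((1 + (K : ℝ) ^ (3 / 4 : ℝ)) * Real.log K ^ 2 / K)) atTop (𝓝 0) := by
        simpa using lim0.const_mul (|C1| + |C2|)
      refine squeeze_zero_norm (fun K => ?_) h4
      rw [Real.norm_eq_abs, abs_div, abs_mul, abs_of_nonneg (sq_nonneg (Real.log (K : ℝ))),
        abs_of_nonneg (Nat.cast_nonneg K : (0 : ℝ) ≤ K)]
      have h5 := mul_le_mul_of_nonneg_right (herr K) (sq_nonneg (Real.log (K : ℝ)))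
      calc |∑ k ∈ range K, T k - A * ∑ k ∈ range K, g k ^ 2| * Real.log K ^ 2 / K
          ≤ (|C1| + |C2|) * (1 + (K : ℝ) ^ (3 / 4 : ℝ)) * Real.log K ^ 2 / K :=
            div_le_div_of_nonneg_right h5 (Nat.cast_nonneg K)
        _ = (|C1| + |C2|) * ((1 + (K : ℝ) ^ (3 / 4 : ℝ)) * Real.log K ^ 2 / K) := by ring
    have h6 := (h3.const_mul A).add hl
    rw [add_zero] at h6
    refine h6.congr fun K => ?_
    ring
  · obtain ⟨C3, h3⟩ := h.sumT 2 0 (by norm_num)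
    obtain ⟨C4, h4⟩ := h.sumT 2 1 (by norm_num)
    have hper : ∀ k, (fun k => (-1 : ℝ) ^ k * a k) (k + 2 * J) = (fun k => (-1 : ℝ) ^ k * a k) k := by
      intro k
      have e1 : a (k + 2 * J) = a k := by
        have : k + 2 * J = (k + J) + J := by ring
        rw [this, h.per, h.per]
      simp only [e1, pow_add, pow_mul]
      norm_num
    obtain ⟨C5, h5⟩ := hP (2 * J) (fun k => (-1 : ℝ) ^ k * a k) (fun k => g k ^ 2) (by omega) hper hanti2 hnn2
    have hzero : ∑ k ∈ range (2 * J), (-1 : ℝ) ^ k * a k = 0 := by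
      rw [two_mul, sum_range_add]
      have e1 : ∀ k, (-1 : ℝ) ^ (J + k) * a (J + k) = -((-1 : ℝ) ^ k * a k) := by
        intro k
        rw [add_comm J k, h.per, pow_add, h.odd.neg_one_pow]
        ring
      simp only [e1, sum_neg_distrib]
      ring
    simp only [hzero, zero_div, zero_mul, sub_zero] at h5
    refine ⟨|C3| + |C4| + |C5|, fun K => ?_⟩
    have hK : (0 : ℝ) ≤ (K : ℝ) ^ (3 / 4 : ℝ) := Real.rpow_nonneg (Nat.cast_nonneg K) _
    have e1 : ∑ k ∈ range K, (-1 : ℝ) ^ k * T k =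
        ∑ k ∈ range K, (if k % 2 = 0 then T k - a k * g k ^ 2 else 0) -
          ∑ k ∈ range K, (if k % 2 = 1 then T k - a k * g k ^ 2 else 0) +
          ∑ k ∈ range K, g k ^ 2 * ((-1 : ℝ) ^ k * a k) := by
      rw [← sum_sub_distrib, ← sum_add_distrib]
      refine sum_congr rfl fun k _ => ?_
      rcases Nat.even_or_odd k with hk | hk
      · have h0 : k % 2 = 0 := Nat.even_iff.1 hk
        rw [hk.neg_one_pow, if_pos h0, if_neg (by omega)]
        ring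
      · have h0 : k % 2 = 1 := Nat.odd_iff.1 hk
        rw [hk.neg_one_pow, if_neg (by omega), if_pos h0]
        ring
    rw [e1]
    refine (abs_add_le _ _).trans ?_
    have e2 := le_abs_mul (h3 K) hK
    have e3 := le_abs_mul (h4 K) hK
    have e4 := (h5 K).trans (le_abs_self C5)
    have e5 := abs_sub (∑ k ∈ range K, (if k % 2 = 0 then T k - a k * g k ^ 2 else 0))
      (∑ k ∈ range K, (if k % 2 = 1 then T k - a k * g k ^ 2 else 0))
    nlinarith [abs_nonneg C3, abs_nonneg C4, abs_nonneg C5, mul_nonneg (abs_nonneg C5) hK]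

end Pool.Agent.N584.TB
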